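import Pool.Agent.H.MP_38bc51_pr.A

set_option autoImplicit false

namespace Pool.Agent.Results.MP_38bc51_pr.Bounds

open MeasureTheory ProbabilityTheory Pool.Agent.H.MP_38bc51_pr

/-- almost surely no two adjacent ones -/
def HardCore (μ : Measure (ℤ → Bool)) : Prop :=
  ∀ᵐ x ∂μ, ∀ i : ℤ, ¬ (x i = true ∧ x (i + 1) = true)

/-- the law is invariant under the shift -/
def Stationary (μ : Measure (ℤ → Bool)) : Prop :=
  μ.map (fun (x : ℤ → Bool) (i : ℤ) => x (i + 1)) = μ

/-- coordinates on sets at distance more than `k` are independent -/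
def KDep (k : ℕ) (μ : Measure (ℤ → Bool)) : Prop :=
  ∀ A B : Set ℤ, (∀ a ∈ A, ∀ b ∈ B, (k : ℤ) < |a - b|) →
    IndepFun (fun (x : ℤ → Bool) (a : A) => x a) (fun (x : ℤ → Bool) (b : B) => x b) μ

/-- the supremum of the one-vertex marginals -/
noncomputable def pk (k : ℕ) : ℝ :=
  sSup {p | ∃ μ : Measure (ℤ → Bool), IsProbabilityMeasure μ ∧ HardCore μ ∧ Stationary μ ∧
    KDep k μ ∧ p = μ.real {x | x 0 = true}}

def PS (A : Set ℤ) : Set (Set (ℤ → Bool)) := {s | ∃ F : Finset ℤ, (∀ i ∈ F, i ∈ A) ∧ s = E F}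

lemma E_union (F G : Finset ℤ) : E (F ∪ G) = E F ∩ E G := by
  ext x; simp [E, or_imp, forall_and]

lemma PS_pi (A : Set ℤ) : IsPiSystem (PS A) := by
  rintro _ ⟨F, hF, rfl⟩ _ ⟨G, hG, rfl⟩ _
  refine ⟨F ∪ G, fun i hi => ?_, (E_union F G).symm⟩
  rcases Finset.mem_union.1 hi with h | h
  exacts [hF i h, hG i h]

lemma meas_gen (A : Set ℤ) (i : ℤ) (hi : i ∈ A) :
    Measurable[MeasurableSpace.generateFrom (PS A)] (fun x : ℤ → Bool => x i) := by
  letI := MeasurableSpace.generateFrom (PS A)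
  apply measurable_to_bool
  apply MeasurableSpace.measurableSet_generateFrom
  exact ⟨{i}, by simpa using hi, by ext; simp [E]⟩

lemma shift_meas : Measurable (fun (x : ℤ → Bool) (i : ℤ) => x (i + 1)) := by fun_prop

lemma shift_E (F : Finset ℤ) :
    (fun (x : ℤ → Bool) (i : ℤ) => x (i + 1)) ⁻¹' E F = E (F.image (· + 1)) := by
  ext x; simp only [E, Set.mem_preimage, Set.mem_setOf_eq, Finset.forall_mem_image]

lemma φ_shift (F : Finset ℤ) : φ (F.image (· + 1)) = φ F := by
  unfold φ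
  rw [Finset.prod_image (by intro a _ b _ h; simpa using h)]
  refine Finset.prod_congr rfl fun i _ => ?_
  have : ∀ j, j + 1 ∈ F.image (· + 1) ↔ j ∈ F := by simp
  unfold gg
  rw [show i + 1 - 1 = i - 1 + 1 by ring, show i + 1 - 2 = i - 2 + 1 by ring]
  simp only [this]

lemma φ_nonneg (F : Finset ℤ) : 0 ≤ φ F :=
  Finset.prod_nonneg fun i _ => by unfold gg; split_ifs <;> norm_num

lemma φ_union (F G : Finset ℤ) (h : ∀ a ∈ F, ∀ b ∈ G, (2:ℤ) < |a - b|) :
    φ (F ∪ G) = φ F * φ G := by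
  unfold φ
  rw [Finset.prod_union (Finset.disjoint_left.2 fun a ha hb => by simpa using h a ha a hb)]
  congr 1
  · refine Finset.prod_congr rfl fun i hi => ?_
    have h1 : i - 1 ∉ G := fun hh => by have := h i hi _ hh; norm_num at this
    have h2 : i - 2 ∉ G := fun hh => by have := h i hi _ hh; norm_num at this
    simp [gg, h1, h2]
  · refine Finset.prod_congr rfl fun i hi => ?_
    have h1 : i - 1 ∉ F := fun hh => by have := h _ hh i hi; norm_num at this
    have h2 : i - 2 ∉ F := fun hh => by have := h _ hh i hi; norm_num at this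
    simp [gg, h1, h2]

lemma lower : ∃ μ : Measure (ℤ → Bool), IsProbabilityMeasure μ ∧ HardCore μ ∧ Stationary μ ∧
    KDep 2 μ ∧ 7 / 20 = μ.real {x | x 0 = true} := by
  obtain ⟨μ, hp, hμ⟩ := exists_mu
  have hm : ∀ A, ∀ s ∈ PS A, MeasurableSet s := by rintro A _ ⟨F, -, rfl⟩; exact E_meas F
  refine ⟨μ, hp, ?_, ?_, ?_, ?_⟩
  · rw [HardCore, ae_all_iff]
    intro i
    rw [ae_iff]
    have : {x : ℤ → Bool | ¬ ¬ (x i = true ∧ x (i+1) = true)} = E {i, i+1} := by ext; simp [E]
    rw [this, hμ, φ, Finset.prod_eq_zero (i := i+1) (by simp) (by simp [gg])]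
    simp
  · haveI := Measure.isProbabilityMeasure_map (μ := μ) shift_meas.aemeasurable
    refine ext_of_generate_finite (PS Set.univ) ?_ (PS_pi _) ?_ (by simp)
    · apply le_antisymm
      · have : @Measurable _ _ (MeasurableSpace.generateFrom (PS Set.univ)) MeasurableSpace.pi
            (fun (x : ℤ → Bool) (i : ℤ) => x i) :=
          @measurable_pi_lambda _ _ _ (MeasurableSpace.generateFrom (PS Set.univ)) _ _
            fun i => meas_gen _ i trivial
        exact fun s hs => this hs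
      · exact MeasurableSpace.generateFrom_le (hm _)
    · rintro _ ⟨F, -, rfl⟩
      rw [Measure.map_apply shift_meas (E_meas F), shift_E, hμ, hμ, φ_shift]
  · intro A B hAB
    have hI : Indep (MeasurableSpace.generateFrom (PS A)) (MeasurableSpace.generateFrom (PS B)) μ := by
      refine IndepSets.indep' (hm A) (hm B) (PS_pi A) (PS_pi B) ?_
      rw [IndepSets_iff]
      rintro _ _ ⟨F, hF, rfl⟩ ⟨G, hG, rfl⟩
      rw [← E_union, hμ, hμ, hμ, φ_union F G (fun a ha b hb => hAB a (hF a ha) b (hG b hb)),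
        ENNReal.ofReal_mul (φ_nonneg F)]
    have hc : ∀ A : Set ℤ, MeasurableSpace.comap (fun (x : ℤ → Bool) (a : A) => x a) MeasurableSpace.pi
        ≤ MeasurableSpace.generateFrom (PS A) := fun A =>
      Measurable.comap_le (@measurable_pi_lambda _ _ _ (MeasurableSpace.generateFrom (PS A)) _ _
        fun i => meas_gen _ i i.2)
    rw [IndepFun_iff_Indep]
    exact indep_of_indep_of_le hI (hc A) (hc B)
  · have : {x : ℤ → Bool | x 0 = true} = E {0} := by ext; simp [E]
    rw [this, Measure.real, hμ]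
    simp [φ, gg]; norm_num

lemma upper (μ : Measure (ℤ → Bool)) [IsProbabilityMeasure μ] (h1 : HardCore μ) (h2 : Stationary μ)
    (h3 : KDep 2 μ) : μ.real {x | x 0 = true} ≤ (3 - Real.sqrt 5) / 2 := by
  have e0 : {x : ℤ → Bool | x 0 = true} = E {0} := by ext; simp [E]
  rw [e0]
  have sh : ∀ F G : Finset ℤ, F.image (· + 1) = G → μ.real (E G) = μ.real (E F) := by
    rintro F _ rfl
    conv_rhs => rw [← h2]
    rw [Measure.real, Measure.real, Measure.map_apply shift_meas (E_meas F), shift_E]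
  have ind : ∀ F G H : Finset ℤ, (∀ a ∈ F, ∀ b ∈ G, (2:ℤ) < |a - b|) → F ∪ G = H →
      μ.real (E H) = μ.real (E F) * μ.real (E G) := by
    rintro F G _ h rfl
    have := (h3 F G h).measure_inter_preimage_eq_mul {y | ∀ i, y i = true} {y | ∀ i, y i = true}
      (Set.to_countable _).measurableSet (Set.to_countable _).measurableSet
    have e : ∀ F : Finset ℤ, (fun (x : ℤ → Bool) (a : (F : Set ℤ)) => x a) ⁻¹' {y | ∀ i, y i = true} = E F := by
      intro F; ext; simp [E]
    rw [e, e, ← E_union] at this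
    simp only [Measure.real, this, ENNReal.toReal_mul]
  obtain ⟨p, hp⟩ : ∃ p, μ.real (E {0}) = p := ⟨_, rfl⟩
  obtain ⟨a, ha⟩ : ∃ a, μ.real (E {0, 2}) = a := ⟨_, rfl⟩
  have p1 : μ.real (E {1}) = p := (sh {0} _ (by decide)).trans hp
  have p2 : μ.real (E {2}) = p := (sh {1} _ (by decide)).trans p1
  have p3 : μ.real (E {3}) = p := (sh {2} _ (by decide)).trans p2
  have p5 : μ.real (E {5}) = p := (sh {4} _ (by decide)).trans ((sh {3} _ (by decide)).trans p3)
  have a1 : μ.real (E {1, 3}) = a := (sh {0, 2} _ (by decide)).trans ha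
  have a3 : μ.real (E {3, 5}) = a :=
    (sh {2, 4} _ (by decide)).trans ((sh {1, 3} _ (by decide)).trans a1)
  have q03 : μ.real (E {0, 3}) = p * p := by
    rw [ind {0} {3} _ (by decide) (by decide), p3, hp]
  have q05 : μ.real (E {0, 5}) = p * p := by
    rw [ind {0} {5} _ (by decide) (by decide), p5, hp]
  have q025 : μ.real (E {0, 2, 5}) = a * p := by
    rw [ind {0, 2} {5} _ (by decide) (by decide), p5, ha]
  have q035 : μ.real (E {0, 3, 5}) = p * a := by
    rw [ind {0} {3, 5} _ (by decide) (by decide), a3, hp]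
  have pp0 : 0 ≤ p := hp ▸ measureReal_nonneg
  have pp1 : p ≤ 1 := hp ▸ measureReal_le_one
  rw [hp]
  let X : Finset ℤ → (ℤ → Bool) → ℝ := fun F => (E F).indicator 1
  have Xi : ∀ F, Integrable (X F) μ := fun F => (integrable_const 1).indicator (E_meas F)
  have XI : ∀ F, ∫ x, X F x ∂μ = μ.real (E F) := fun F => integral_indicator_one (E_meas F)
  have Xe : ∀ F x, X F x = if ∀ i ∈ F, x i = true then 1 else 0 := by
    intro F x; simp only [X, Set.indicator, E]; simp
  have i1 : ∫ x, X {0, 2, 5} x + X {0, 3, 5} x ∂μ ≤ ∫ x, X {0, 5} x ∂μ := by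
    refine integral_mono_ae ((Xi _).add (Xi _)) (Xi _) ?_
    filter_upwards [h1] with x hx
    have := hx 2
    simp only [Xe]
    cases h0 : x 0 <;> cases h2 : x 2 <;> cases h3 : x 3 <;> cases h5 : x 5 <;> simp_all
  have i2 : ∫ x, X {0} x + X {1} x + X {2} x + X {3} x ∂μ
      ≤ ∫ x, 1 + X {0, 2} x + X {1, 3} x + X {0, 3} x ∂μ := by
    refine integral_mono_ae ((((Xi _).add (Xi _)).add (Xi _)).add (Xi _))
      ((((integrable_const 1).add (Xi _)).add (Xi _)).add (Xi _)) ?_
    filter_upwards [h1] with x hx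
    have b0 := hx 0
    have b1 := hx 1
    have b2 := hx 2
    simp only [Xe]
    cases h0 : x 0 <;> cases h1 : x 1 <;> cases h2 : x 2 <;> cases h3 : x 3 <;> simp_all
  rw [integral_add (Xi _) (Xi _), XI, XI, XI, q025, q035, q05] at i1
  have sum4 : ∀ f g h k : (ℤ → Bool) → ℝ, Integrable f μ → Integrable g μ → Integrable h μ →
      Integrable k μ → ∫ x, f x + g x + h x + k x ∂μ
        = ∫ x, f x ∂μ + ∫ x, g x ∂μ + ∫ x, h x ∂μ + ∫ x, k x ∂μ := by
    intro f g h k hf hg hh hk
    rw [integral_add (f := fun x => f x + g x + h x) ((hf.add hg).add hh) hk,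
      integral_add (f := fun x => f x + g x) (hf.add hg) hh, integral_add hf hg]
  rw [sum4 _ _ _ _ (Xi _) (Xi _) (Xi _) (Xi _),
    sum4 (fun _ => 1) _ _ _ (integrable_const 1) (Xi _) (Xi _) (Xi _),
    XI, XI, XI, XI, XI, XI, XI, hp, p1, p2, p3, ha, a1, q03] at i2
  simp only [integral_const, probReal_univ, smul_eq_mul, mul_one] at i2
  have s5 : Real.sqrt 5 ^ 2 = 5 := Real.sq_sqrt (by norm_num)
  have s0 : 0 ≤ Real.sqrt 5 := Real.sqrt_nonneg 5
  rcases pp0.eq_or_lt with h | h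
  · rw [← h]; nlinarith
  · have : 2 * a ≤ p := le_of_mul_le_mul_left (by linarith) h
    have key : (Real.sqrt 5)^2 ≤ (3 - 2 * p)^2 := by nlinarith
    have := (abs_le_of_sq_le_sq' key (by linarith)).2
    linarith

theorem result : 7 / 20 ≤ pk 2 ∧ pk 2 ≤ (3 - Real.sqrt 5) / 2 := by
  have hb : ∀ p ∈ {p | ∃ μ : Measure (ℤ → Bool), IsProbabilityMeasure μ ∧ HardCore μ ∧ Stationary μ ∧
      KDep 2 μ ∧ p = μ.real {x | x 0 = true}}, p ≤ (3 - Real.sqrt 5) / 2 := by
    rintro p ⟨μ, h0, h1, h2, h3, rfl⟩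
    exact upper μ h1 h2 h3
  exact ⟨le_csSup ⟨_, hb⟩ lower, csSup_le ⟨_, lower⟩ hb⟩

end Pool.Agent.Results.MP_38bc51_pr.Bounds
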